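import Mathlib
import Pool.Agent.K.MP_ac2766_co.C0

theorem Pool.Agent.Results.MP_ac2766_co.FourHexagon.result :
    ∃ c : ℝ, 0 < c ∧ ∀ n : ℕ, 32 ≤ n →
      ∃ (d : ℕ) (v : Fin n → EuclideanSpace ℝ (Fin d)), (∀ i, ‖v i‖ = 1) ∧
        (∀ I : Finset (Fin n), I.card = 4 →
          ∃ i ∈ I, ∃ j ∈ I, i ≠ j ∧ inner ℝ (v i) (v j) = 0) ∧
        c * (n : ℝ) ^ (7 / 10 : ℝ) ≤ ‖∑ i, v i‖ :=
  ⟨1 / 1024, by norm_num, fun n hn => Pool.Agent.P.MP_ac2766_co.Hx.main n hn⟩
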