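import Mathlib
import Pool.Agent.K.MP_ac2766_co.C1

theorem Pool.Agent.Results.MP_ac2766_co.SqrtLowerBound.result :
    ∃ C : ℝ, ∀ k : ℕ, 2 ≤ k → ∃ n₀ : ℕ, ∀ n : ℕ, n₀ ≤ n →
      ∃ (d : ℕ) (v : Fin n → EuclideanSpace ℝ (Fin d)), (∀ i, ‖v i‖ = 1) ∧
        (∀ I : Finset (Fin n), I.card = k →
          ∃ i ∈ I, ∃ j ∈ I, i ≠ j ∧ inner ℝ (v i) (v j) = 0) ∧
        (n : ℝ) ^ (1 - C * Real.log k / Real.sqrt k) ≤ ‖∑ i, v i‖ :=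
  Pool.Agent.P.MP_ac2766_co.main
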