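import Mathlib
import Pool.Agent.K.MP_ac2766_co.C2

open Pool.Agent.P.MP_ac2766_co.Up in
theorem Pool.Agent.Results.MP_ac2766_co.UpperGain.result :
    ∀ k : ℕ, 9 ≤ k → ∃ C : ℝ, ∀ (n d : ℕ) (v : Fin n → EuclideanSpace ℝ (Fin d)),
      (∀ i, ‖v i‖ = 1) →
      (∀ I : Finset (Fin n), I.card = k →
        ∃ i ∈ I, ∃ j ∈ I, i ≠ j ∧ inner ℝ (v i) (v j) = 0) →
      ‖∑ i, v i‖ ≤ C * (n : ℝ) ^ (1 - 1 / ((k : ℝ) - ((k : ℝ) - 8) / 6000)) := by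
  intro k hk
  obtain ⟨j, rfl⟩ := Nat.exists_eq_add_of_le' (show 8 ≤ k by omega)
  have hj : (0 : ℝ) ≤ j := Nat.cast_nonneg j
  obtain ⟨C, hC⟩ := ((PP_all rfl j).2.2.mono
    (E' := ((j + 8 : ℕ) : ℝ) - (((j + 8 : ℕ) : ℝ) - 8) / 6000)
    (by push_cast; linarith)).norm_le (by push_cast; linarith)
  exact ⟨C, fun n d v hv hF => hC n d v hv fun I _ hI => hF I hI⟩
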